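import Pool.Agent.Helper33.TreeSides
import Pool.Agent.Helper33.ExtremalCount

/-!
# MP_38057e_co : `f(r, 3) = (r - 1) / r ^ 3` for every `r ≥ 4`
-/

namespace Pool.Agent.Results.MP_38057e_co.ThreeTrees

open Filter Topology SimpleGraph Pool.Agent.Helper33

/-- A finite tree of maximum degree at most `r` in which `n` distinct vertices carry the labels
`0, …, n - 1`; other, unlabelled vertices are allowed. -/
structure LabelledTree (r n : ℕ) where
  /-- the vertices of the tree -/
  V : Type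
  /-- the tree is finite -/
  finite : Finite V
  /-- the tree -/
  graph : SimpleGraph V
  /-- it is a tree -/
  isTree : graph.IsTree
  /-- the maximum degree is at most `r` -/
  degree_le : ∀ v, (graph.neighborSet v).ncard ≤ r
  /-- the vertex carrying a given label -/
  label : Fin n → V
  /-- different labels are carried by different vertices -/
  label_injective : Function.Injective label

/-- `X` and `Y` are separated by the partition `P_e` of the set of labels: all labels of `X` are in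
one of the two components left by the deletion of the edge `e`, and all labels of `Y` are in the
other one. -/
def LabelledTree.Separates {r n : ℕ} (T : LabelledTree r n) (e : Sym2 T.V)
    (X Y : Finset (Fin n)) : Prop :=
  ∃ u v, e = s(u, v) ∧ (∀ x ∈ X, (T.graph.deleteEdges {e}).Reachable u (T.label x)) ∧
    (∀ y ∈ Y, (T.graph.deleteEdges {e}).Reachable v (T.label y))

/-- `f(𝒯, n)`: the maximum of `min (|X|, |Y|)` over all cut vectors `e` of the family `F` and all
disjoint sets `X`, `Y` of labels separated by `e` (i.e. separated by `P_{e i}` for every `i`). -/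
noncomputable def sepNumber {r k n : ℕ} (F : Fin k → LabelledTree r n) : ℕ :=
  sSup {m | ∃ (e : ∀ i, Sym2 (F i).V) (X Y : Finset (Fin n)),
    (∀ i, e i ∈ (F i).graph.edgeSet) ∧ Disjoint X Y ∧ (∀ i, (F i).Separates (e i) X Y) ∧
      m = min X.card Y.card}

/-- `f(r, k, n)`: the minimum of `f(𝒯, n)` over all `k`-families of labelled trees of maximum
degree at most `r`. -/
noncomputable def minSepNumber (r k n : ℕ) : ℕ :=
  sInf {m | ∃ F : Fin k → LabelledTree r n, m = sepNumber F}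

/-! ### The lower bound -/

lemma bddAbove {r k n : ℕ} (F : Fin k → LabelledTree r n) :
    BddAbove {m | ∃ (e : ∀ i, Sym2 (F i).V) (X Y : Finset (Fin n)),
    (∀ i, e i ∈ (F i).graph.edgeSet) ∧ Disjoint X Y ∧ (∀ i, (F i).Separates (e i) X Y) ∧
      m = min X.card Y.card} := by
  refine ⟨n, ?_⟩
  rintro m ⟨e, X, Y, -, -, -, rfl⟩
  refine (min_le_left _ _).trans ?_
  have := Finset.card_le_univ X
  simpa using this

lemma lower {r n t : ℕ} (hr : 4 ≤ r) (hn : r ^ 3 * t + n ≤ r * n)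
    (F : Fin 3 → LabelledTree r n) : t ≤ sepNumber F := by
  rcases Nat.eq_zero_or_pos t with rfl | ht
  · exact Nat.zero_le _
  have hf : ∀ i, Finite (F i).V := fun i => (F i).finite
  have hcs := fun i => cutSystem_tree (F i).isTree (F i).degree_le (F i).label
    (F i).label_injective
  obtain ⟨A, ⟨u₀, v₀, h₀, rfl⟩, B, ⟨u₁, v₁, h₁, rfl⟩, C, ⟨u₂, v₂, h₂, rfl⟩, hX, hY⟩ :=
    three_trees hr ht hn (hcs 0) (hcs 1) (hcs 2)
  set A := side (F 0).graph (F 0).label u₀ v₀ with hA
  set B := side (F 1).graph (F 1).label u₁ v₁ with hB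
  set C := side (F 2).graph (F 2).label u₂ v₂ with hC
  have hsep : ∀ (T : LabelledTree r n) (u v : T.V) (huv : T.graph.Adj u v)
      (X Y : Finset (Fin n)), X ⊆ side T.graph T.label u v → Y ⊆ (side T.graph T.label u v)ᶜ →
      T.Separates s(v, u) X Y := by
    intro T u v huv X Y hX hY
    refine ⟨v, u, rfl, ?_, ?_⟩
    · intro x hx
      have := (mem_side _ _ _ _ _).mp (hX hx)
      rwa [Sym2.eq_swap]
    · intro y hy
      have := hY hy
      rw [side_compl T.isTree T.label huv] at this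
      exact (mem_side _ _ _ _ _).mp this
  refine le_trans ?_ (le_csSup (bddAbove F) ⟨Fin.cons s(v₀, u₀) (Fin.cons s(v₁, u₁)
    (Fin.cons s(v₂, u₂) (fun i => i.elim0))), A ∩ B ∩ C, Aᶜ ∩ Bᶜ ∩ Cᶜ, ?_, ?_, ?_, rfl⟩)
  · exact le_min hX hY
  · intro i
    fin_cases i
    · exact h₀.symm
    · exact h₁.symm
    · exact h₂.symm
  · rw [Finset.disjoint_left]
    intro x hx hx'
    simp only [Finset.mem_inter, Finset.mem_compl] at hx hx'
    exact hx'.2 hx.2
  · intro i
    fin_cases i
    · refine hsep (F 0) u₀ v₀ h₀ _ _ ?_ ?_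
      · intro x hx
        simp only [Finset.mem_inter] at hx
        exact hx.1.1
      · intro x hx
        simp only [Finset.mem_inter] at hx
        exact hx.1.1
    · refine hsep (F 1) u₁ v₁ h₁ _ _ ?_ ?_
      · intro x hx
        simp only [Finset.mem_inter] at hx
        exact hx.1.2
      · intro x hx
        simp only [Finset.mem_inter] at hx
        exact hx.1.2
    · refine hsep (F 2) u₂ v₂ h₂ _ _ ?_ ?_
      · intro x hx
        simp only [Finset.mem_inter] at hx
        exact hx.2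
      · intro x hx
        simp only [Finset.mem_inter] at hx
        exact hx.2

/-! ### The upper bound -/

/-- The `i`-th tree of the extremal family. -/
def extremalTree {r n q : ℕ} (hr : 2 ≤ r) (g : Fin n → (Fin 3 → Coord r) × Fin q) (i : Fin 3) :
    LabelledTree r n where
  V := Vtx r n
  finite := inferInstance
  graph := parentGraph Vtx.parent
  isTree := Vtx.isTree
  degree_le := Vtx.degree_le hr
  label x := Vtx.path ((g x).1 i).1 ((g x).1 i).2.1 ((g x).1 i).2.2 x
  label_injective := by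
    intro x y hxy
    simp only [Vtx.path.injEq] at hxy
    exact hxy.2.2.2

lemma extremal_separates {r n q : ℕ} (hr : 4 ≤ r) (g : Fin n → (Fin 3 → Coord r) × Fin q)
    (i : Fin 3) (e : Sym2 (Vtx r n))
    (he : e ∈ (parentGraph (Vtx.parent : Vtx r n → Vtx r n)).edgeSet) (X Y : Finset (Fin n))
    (hXY : (extremalTree (by omega) g i : LabelledTree r n).Separates e X Y) :
    ∃ P Q : Finset (Coord r), (PairOK (r - 1) P.card Q.card ∨ PairOK (r - 1) Q.card P.card) ∧
      (∀ x ∈ X, (g x).1 i ∈ P) ∧ (∀ y ∈ Y, (g y).1 i ∈ Q) := by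
  obtain ⟨v, hv, hsep⟩ := parentGraph_sep Vtx.parent_root Vtx.depth_parent he
  obtain ⟨P, Q, hPQ, hP, hQ⟩ := pair_of_vertex hr v hv
  obtain ⟨a, b, hab, hX, hY⟩ := hXY
  rcases hsep a b hab with ⟨h1, h2⟩ | ⟨h1, h2⟩
  · exact ⟨P, Q, Or.inl hPQ, fun x hx => hP _ x (h1 _ (hX x hx)),
      fun y hy => hQ _ y (h2 _ (hY y hy))⟩
  · exact ⟨Q, P, Or.inr hPQ, fun x hx => hQ _ x (h1 _ (hX x hx)),
      fun y hy => hP _ y (h2 _ (hY y hy))⟩

lemma upper {r : ℕ} (hr : 4 ≤ r) (n : ℕ) :
    ∃ F : Fin 3 → LabelledTree r n,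
      sepNumber F ≤ (r - 1) ^ 7 * (n / (r * (r - 1) ^ 2) ^ 3 + 1) := by
  obtain ⟨g, hg⟩ := exists_coords hr n
  refine ⟨extremalTree (by omega) g, ?_⟩
  have hbound : ∀ m, (∃ (e : ∀ i, Sym2 ((extremalTree (by omega) g i : LabelledTree r n)).V)
      (X Y : Finset (Fin n)),
      (∀ i, e i ∈ (extremalTree (by omega) g i : LabelledTree r n).graph.edgeSet) ∧
      Disjoint X Y ∧ (∀ i, (extremalTree (by omega) g i : LabelledTree r n).Separates (e i) X Y) ∧
      m = min X.card Y.card) → m ≤ (r - 1) ^ 7 * (n / (r * (r - 1) ^ 2) ^ 3 + 1) := by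
    rintro m ⟨e, X, Y, he, -, hsep, rfl⟩
    have h := fun i => extremal_separates hr g i (e i) (he i) X Y (hsep i)
    choose P Q hPQ hP hQ using h
    have hX := card_le_of_coords g hg X P (fun x hx i => hP i x hx)
    have hY := card_le_of_coords g hg Y Q (fun x hx i => hQ i x hx)
    rcases pair_arith (by omega : 3 ≤ r - 1) (hPQ 0) (hPQ 1) (hPQ 2) with h | h
    · exact (min_le_left _ _).trans (hX.trans (Nat.mul_le_mul_right _ h))
    · exact (min_le_right _ _).trans (hY.trans (Nat.mul_le_mul_right _ h))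
  unfold sepNumber
  rcases Set.eq_empty_or_nonempty {m | ∃ (e : ∀ i, Sym2 ((extremalTree (by omega) g i :
      LabelledTree r n)).V) (X Y : Finset (Fin n)),
      (∀ i, e i ∈ (extremalTree (by omega) g i : LabelledTree r n).graph.edgeSet) ∧
      Disjoint X Y ∧ (∀ i, (extremalTree (by omega) g i : LabelledTree r n).Separates (e i) X Y) ∧
      m = min X.card Y.card} with hemp | hne
  · rw [hemp]
    simp
  · exact csSup_le hne hbound

lemma minSepNumber_le {r : ℕ} (hr : 4 ≤ r) (n : ℕ) :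
    minSepNumber r 3 n ≤ (r - 1) ^ 7 * (n / (r * (r - 1) ^ 2) ^ 3 + 1) := by
  obtain ⟨F, hF⟩ := upper hr n
  have hmem : sepNumber F ∈ {m | ∃ F : Fin 3 → LabelledTree r n, m = sepNumber F} := ⟨F, rfl⟩
  exact (Nat.sInf_le hmem).trans hF

lemma le_minSepNumber {r : ℕ} (hr : 4 ≤ r) (n : ℕ) :
    (r - 1) * n / r ^ 3 ≤ minSepNumber r 3 n := by
  obtain ⟨F, -⟩ := upper hr n
  have hne : {m | ∃ F : Fin 3 → LabelledTree r n, m = sepNumber F}.Nonempty := ⟨_, F, rfl⟩
  obtain ⟨F', hF'⟩ := Nat.sInf_mem hne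
  unfold minSepNumber
  rw [hF']
  apply lower hr
  have h1 := Nat.mul_div_le ((r - 1) * n) (r ^ 3)
  obtain ⟨s, rfl⟩ : ∃ s, r = s + 1 := ⟨r - 1, by omega⟩
  simp only [Nat.add_sub_cancel] at h1 ⊢
  nlinarith

/-- **MP_38057e_co, Q1 (full answer).**  For every integer `r ≥ 4`,
`f(r, 3) = lim f(r, 3, n) / n = (r - 1) / r ^ 3`. -/
theorem result (r : ℕ) (hr : 4 ≤ r) :
    Tendsto (fun n : ℕ => (minSepNumber r 3 n : ℝ) / n) atTop
      (𝓝 (((r : ℝ) - 1) / (r : ℝ) ^ 3)) := by
  have hr0 : (0 : ℝ) < r := by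
    have : (4 : ℝ) ≤ r := by exact_mod_cast hr
    linarith
  have hr1 : (0 : ℝ) < (r : ℝ) - 1 := by
    have : (4 : ℝ) ≤ r := by exact_mod_cast hr
    linarith
  have hcast : ((r - 1 : ℕ) : ℝ) = (r : ℝ) - 1 := by
    rw [Nat.cast_sub (by omega)]; simp
  have hlim : ∀ c : ℝ, Tendsto (fun n : ℕ => ((r : ℝ) - 1) / (r : ℝ) ^ 3 + c / n) atTop
      (𝓝 (((r : ℝ) - 1) / (r : ℝ) ^ 3)) := by
    intro c
    have := (tendsto_const_nhds (x := ((r : ℝ) - 1) / (r : ℝ) ^ 3) (f := atTop)).add
      (tendsto_const_div_atTop_nhds_zero_nat c)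
    simpa using this
  refine tendsto_of_tendsto_of_tendsto_of_le_of_le' (hlim (-1)) (hlim (((r : ℝ) - 1) ^ 7)) ?_ ?_
  · filter_upwards [eventually_gt_atTop 0] with n hn
    have hn' : (0 : ℝ) < n := by exact_mod_cast hn
    have h1 := le_minSepNumber hr n
    have h2 : ((r - 1) * n : ℕ) < r ^ 3 * ((r - 1) * n / r ^ 3 + 1) :=
      Nat.lt_mul_div_succ _ (by positivity)
    have h3 : ((r : ℝ) - 1) * n < (r : ℝ) ^ 3 * ((minSepNumber r 3 n : ℝ) + 1) := by
      have h4 : ((r - 1) * n : ℕ) < r ^ 3 * (minSepNumber r 3 n + 1) :=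
        h2.trans_le (Nat.mul_le_mul_left _ (by omega))
      have h5 : (((r - 1) * n : ℕ) : ℝ) < ((r ^ 3 * (minSepNumber r 3 n + 1) : ℕ) : ℝ) := by
        exact_mod_cast h4
      push_cast at h5
      rw [hcast] at h5
      exact h5
    rw [le_div_iff₀ hn']
    have h6 : (((r : ℝ) - 1) / (r : ℝ) ^ 3 + -1 / n) * n = ((r : ℝ) - 1) * n / (r : ℝ) ^ 3 - 1 := by
      field_simp
      ring
    rw [h6]
    have h7 : ((r : ℝ) - 1) * n / (r : ℝ) ^ 3 ≤ (minSepNumber r 3 n : ℝ) + 1 := by
      rw [div_le_iff₀ (by positivity)]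
      linarith
    linarith
  · filter_upwards [eventually_gt_atTop 0] with n hn
    have hn' : (0 : ℝ) < n := by exact_mod_cast hn
    have h1 := minSepNumber_le hr n
    have h2 : (minSepNumber r 3 n : ℝ) ≤
        (((r - 1) ^ 7 * (n / (r * (r - 1) ^ 2) ^ 3 + 1) : ℕ) : ℝ) := by exact_mod_cast h1
    push_cast at h2
    rw [hcast] at h2
    have h3 : ((n / (r * (r - 1) ^ 2) ^ 3 : ℕ) : ℝ) ≤ (n : ℝ) / ((r : ℝ) * ((r : ℝ) - 1) ^ 2) ^ 3 := by
      have := @Nat.cast_div_le ℝ _ _ _ n ((r * (r - 1) ^ 2) ^ 3)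
      push_cast at this
      rw [hcast] at this
      exact this
    rw [div_le_iff₀ hn']
    have h4 : (((r : ℝ) - 1) / (r : ℝ) ^ 3 + ((r : ℝ) - 1) ^ 7 / n) * n =
        ((r : ℝ) - 1) ^ 7 * ((n : ℝ) / ((r : ℝ) * ((r : ℝ) - 1) ^ 2) ^ 3 + 1) := by
      field_simp
    rw [h4]
    refine h2.trans ?_
    gcongr

end Pool.Agent.Results.MP_38057e_co.ThreeTrees
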